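import Pool.Agent.H773.LK.Spec

/-!
Project LK (helper773, MP_daec8e_mp): CONV, by helper353.
-/

set_option autoImplicit false

noncomputable section

namespace Pool.Agent.H353.LK

open MeasureTheory Filter Topology Set Pool.Agent.H773.LK
open scoped ENNReal NNReal ComplexConjugate InnerProductSpace

variable {L β : ℝ} {X y : ℝ → ℝ}

lemma mk_cont (h : Crv L β X y) (m : ℤ) (κ : ℂ) :
    Continuous (Function.uncurry (mk X y m κ)) := by
  have h1 := h.X_cont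
  have h2 := h.y_cont
  unfold Pool.Agent.H773.LK.mk Function.uncurry
  fun_prop

lemma kop_zero (hKOP : S_KOP) (hL : 0 < L) : kop L (fun _ _ => (0 : ℂ)) = 0 := by
  have h := (hKOP L hL).2.2 (fun _ _ => (0 : ℂ)) 0 continuous_const
  simpa using h

lemma kop_sum (hKOP : S_KOP) (hL : 0 < L) {ι : Type} (S : Finset ι) (k : ι → ℝ → ℝ → ℂ)
    (hk : ∀ i, Continuous (Function.uncurry (k i))) :
    kop L (fun s t => ∑ i ∈ S, k i s t) = ∑ i ∈ S, kop L (k i) := by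
  classical
  induction S using Finset.induction_on with
  | empty => simpa using kop_zero hKOP hL
  | insert a S ha ih =>
    rw [Finset.sum_insert ha, ← ih]
    simp only [Finset.sum_insert ha]
    apply (hKOP L hL).2.1 _ _ (hk a)
    have : Function.uncurry (fun s t => ∑ i ∈ S, k i s t) =
        fun p : ℝ × ℝ => ∑ i ∈ S, Function.uncurry (k i) p := rfl
    rw [this]
    exact continuous_finsetSum _ fun i _ => hk i

lemma qq_norm (h : Crv L β X y) (s t : ℝ) : ‖qq β X y s t‖ ≤ 1 := by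
  unfold qq
  rw [Complex.norm_exp]
  rw [Real.exp_le_one_iff]
  have h1 := mul_nonneg h.β_pos.le (abs_nonneg (y s - y t))
  simp
  exact h1

lemma mk_pos (m : ℕ) (s t : ℝ) :
    mk X y (m : ℤ) ((β * m : ℝ) : ℂ) s t = (1 / (2 * (β : ℂ))) * (qq β X y s t ^ m / ((m : ℂ) + 0)) := by
  unfold Pool.Agent.H773.LK.mk qq
  rw [← Complex.exp_nat_mul, ← Complex.exp_add]
  push_cast
  rw [add_zero]
  have : Complex.I * ((m : ℂ) * ((X s : ℂ) - (X t : ℂ))) + -((β : ℂ) * m * ((|y s - y t| : ℝ) : ℂ)) =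
    m * (Complex.I * ((X s : ℂ) - (X t : ℂ)) - (β : ℂ) * ((|y s - y t| : ℝ) : ℂ)) := by ring
  rw [this]
  ring

lemma mk_neg (m : ℕ) (s t : ℝ) :
    mk X y (-(m : ℤ)) ((β * m : ℝ) : ℂ) s t =
      conj ((1 / (2 * (β : ℂ))) * (qq β X y s t ^ m / ((m : ℂ) + 0))) := by
  rw [← mk_pos]
  unfold Pool.Agent.H773.LK.mk
  simp only [map_div₀, map_mul, ← Complex.exp_conj, map_neg, Complex.conj_I, Complex.conj_ofReal]
  push_cast
  simp only [Complex.conj_ofNat, map_natCast]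
  ring_nf

/-- kernel of the reference tail -/
def kt (β : ℝ) (X y : ℝ → ℝ) (N N' : ℕ) (s t : ℝ) : ℂ :=
  ∑ m ∈ Finset.Ioc N N', (mk X y (m : ℤ) ((β * m : ℝ) : ℂ) s t +
    mk X y (-(m : ℤ)) ((β * m : ℝ) : ℂ) s t)

lemma kt_bound (h : Crv L β X y) {C : ℝ} (hC : ∀ q c : ℂ, ‖q‖ ≤ 1 → q ≠ 1 → |c.re| ≤ 1 / 2 →
    ∀ N N' : ℕ, ‖∑ m ∈ Finset.Ioc N N', q ^ m / ((m : ℂ) + c)‖ ≤
      C * (‖1 - q‖ * (N + 1 + ‖c‖)) ^ (-(1 / 4) : ℝ)) (N N' : ℕ) (s t : ℝ)
    (hq : qq β X y s t ≠ 1) :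
    ‖kt β X y N N' s t‖ ≤ (C / β) * (‖1 - qq β X y s t‖ * (N + 1)) ^ (-(1 / 4) : ℝ) := by
  have h1 := hC (qq β X y s t) 0 (qq_norm h s t) hq (by norm_num) N N'
  rw [norm_zero, add_zero] at h1
  have h2 : kt β X y N N' s t =
      (1 / (2 * (β : ℂ))) * (∑ m ∈ Finset.Ioc N N', qq β X y s t ^ m / ((m : ℂ) + 0)) +
      conj ((1 / (2 * (β : ℂ))) * (∑ m ∈ Finset.Ioc N N', qq β X y s t ^ m / ((m : ℂ) + 0))) := by
    unfold kt
    rw [Finset.sum_add_distrib, Finset.mul_sum, map_sum]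
    congr 1
    · exact Finset.sum_congr rfl fun m _ => mk_pos m s t
    · exact Finset.sum_congr rfl fun m _ => mk_neg m s t
  rw [h2]
  refine le_trans (norm_add_le _ _) ?_
  rw [RCLike.norm_conj, norm_mul]
  have h3 : ‖(1 / (2 * (β : ℂ)))‖ = 1 / (2 * β) := by
    rw [norm_div, norm_mul, norm_one]
    simp [abs_of_pos h.β_pos]
  rw [h3]
  have h4 : (0 : ℝ) < 1 / (2 * β) := by have := h.β_pos; positivity
  have h5 := mul_le_mul_of_nonneg_left h1 h4.le
  have h6 : (C / β) * (‖1 - qq β X y s t‖ * (N + 1)) ^ (-(1 / 4) : ℝ) =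
      1 / (2 * β) * (C * (‖1 - qq β X y s t‖ * (N + 1)) ^ (-(1 / 4) : ℝ)) +
      1 / (2 * β) * (C * (‖1 - qq β X y s t‖ * (N + 1)) ^ (-(1 / 4) : ℝ)) := by
    have := h.β_pos
    field_simp
    ring
  rw [h6]
  linarith

lemma kt_cont (h : Crv L β X y) (N N' : ℕ) : Continuous (Function.uncurry (kt β X y N N')) := by
  have : Function.uncurry (kt β X y N N') = fun p : ℝ × ℝ => ∑ m ∈ Finset.Ioc N N',
      (Function.uncurry (mk X y (m : ℤ) ((β * m : ℝ) : ℂ)) p +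
        Function.uncurry (mk X y (-(m : ℤ)) ((β * m : ℝ) : ℂ)) p) := rfl
  rw [this]
  exact continuous_finsetSum _ fun m _ => (mk_cont h _ _).add (mk_cont h _ _)

/-- norm of the reference tail -/
theorem kt_norm (hKOP : S_KOP) (h : Crv L β X y) {C : ℝ} (hC0 : 0 < C)
    (hC : ∀ q c : ℂ, ‖q‖ ≤ 1 → q ≠ 1 → |c.re| ≤ 1 / 2 →
      ∀ N N' : ℕ, ‖∑ m ∈ Finset.Ioc N N', q ^ m / ((m : ℂ) + c)‖ ≤
      C * (‖1 - q‖ * (N + 1 + ‖c‖)) ^ (-(1 / 4) : ℝ)) {G : ℝ} (hG0 : 0 < G)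
    (hG1 : ∀ s ∈ Ioc (0 : ℝ) L, ∀ t ∈ Ioc (0 : ℝ) L, s ≠ t → qq β X y s t ≠ 1)
    (hG : ∫⁻ s in Ioc (0 : ℝ) L, ∫⁻ t in Ioc (0 : ℝ) L,
      ENNReal.ofReal (‖1 - qq β X y s t‖ ^ (-(1 / 2) : ℝ)) ≤ ENNReal.ofReal G) (N N' : ℕ) :
    ‖kop L (kt β X y N N')‖ ≤ (C / β) * √G * ((N : ℝ) + 1) ^ (-(1 / 4) : ℝ) := by
  have hβ := h.β_pos
  have hN : (0 : ℝ) < (N : ℝ) + 1 := by positivity
  set A : ℝ := (C / β) ^ 2 * ((N : ℝ) + 1) ^ (-(1 / 2) : ℝ) with hA
  have hA0 : 0 ≤ A := by positivity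
  have h1 := ((hKOP L h.L_pos).1 _ (kt_cont h N N')).2.1
  have hpt : ∀ s ∈ Ioc (0 : ℝ) L, ∀ t ∈ Ioc (0 : ℝ) L, s ≠ t →
      ‖kt β X y N N' s t‖ ^ 2 ≤ A * ‖1 - qq β X y s t‖ ^ (-(1 / 2) : ℝ) := by
    intro s hs t ht hst
    have hq := hG1 s hs t ht hst
    have hb := kt_bound h hC N N' s t hq
    have hr : 0 < ‖1 - qq β X y s t‖ := norm_pos_iff.2 (sub_ne_zero.2 hq.symm)
    have hb2 := pow_le_pow_left₀ (norm_nonneg _) hb 2
    refine le_trans hb2 (le_of_eq ?_)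
    rw [mul_pow, hA, ← Real.rpow_natCast ((‖1 - qq β X y s t‖ * ((N : ℝ) + 1)) ^ (-(1 / 4) : ℝ)) 2,
      ← Real.rpow_mul (by positivity)]
    norm_num
    rw [Real.mul_rpow hr.le hN.le]
    ring
  have h2 : ENNReal.ofReal (∫ s in Ioc (0 : ℝ) L, ∫ t in Ioc (0 : ℝ) L,
      ‖kt β X y N N' s t‖ ^ 2) ≤ ENNReal.ofReal (A * G) := by
    calc ENNReal.ofReal (∫ s in Ioc (0 : ℝ) L, ∫ t in Ioc (0 : ℝ) L, ‖kt β X y N N' s t‖ ^ 2)
        ≤ ‖∫ s in Ioc (0 : ℝ) L, ∫ t in Ioc (0 : ℝ) L, ‖kt β X y N N' s t‖ ^ 2‖ₑ :=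
          Real.ofReal_le_enorm _
      _ ≤ ∫⁻ s in Ioc (0 : ℝ) L, ‖∫ t in Ioc (0 : ℝ) L, ‖kt β X y N N' s t‖ ^ 2‖ₑ :=
          enorm_integral_le_lintegral_enorm _
      _ ≤ ∫⁻ s in Ioc (0 : ℝ) L, ∫⁻ t in Ioc (0 : ℝ) L, ‖(‖kt β X y N N' s t‖ ^ 2)‖ₑ :=
          lintegral_mono fun s => enorm_integral_le_lintegral_enorm _
      _ ≤ ∫⁻ s in Ioc (0 : ℝ) L, ∫⁻ t in Ioc (0 : ℝ) L,
            ENNReal.ofReal (A * ‖1 - qq β X y s t‖ ^ (-(1 / 2) : ℝ)) := by
          apply lintegral_mono_ae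
          filter_upwards [ae_restrict_mem measurableSet_Ioc] with s hs
          apply lintegral_mono_ae
          have hne : ∀ᵐ t ∂(volume.restrict (Ioc (0 : ℝ) L)), t ≠ s :=
            ae_restrict_of_ae (Measure.ae_ne volume s)
          filter_upwards [ae_restrict_mem measurableSet_Ioc, hne] with t ht hts
          rw [Real.enorm_of_nonneg (by positivity)]
          exact ENNReal.ofReal_le_ofReal (hpt s hs t ht (Ne.symm hts))
      _ = ENNReal.ofReal A * ∫⁻ s in Ioc (0 : ℝ) L, ∫⁻ t in Ioc (0 : ℝ) L,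
            ENNReal.ofReal (‖1 - qq β X y s t‖ ^ (-(1 / 2) : ℝ)) := by
          rw [← lintegral_const_mul' _ _ ENNReal.ofReal_ne_top]
          congr 1
          ext s
          rw [← lintegral_const_mul' _ _ ENNReal.ofReal_ne_top]
          congr 1
          ext t
          rw [ENNReal.ofReal_mul hA0]
      _ ≤ ENNReal.ofReal A * ENNReal.ofReal G := by gcongr
      _ = ENNReal.ofReal (A * G) := by rw [ENNReal.ofReal_mul hA0]
  have h3 : ∫ s in Ioc (0 : ℝ) L, ∫ t in Ioc (0 : ℝ) L, ‖kt β X y N N' s t‖ ^ 2 ≤ A * G :=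
    (ENNReal.ofReal_le_ofReal_iff (by positivity)).1 h2
  have h4 : ‖kop L (kt β X y N N')‖ ^ 2 ≤ ((C / β) * √G * ((N : ℝ) + 1) ^ (-(1 / 4) : ℝ)) ^ 2 := by
    refine le_trans (le_trans h1 h3) (le_of_eq ?_)
    rw [mul_pow, mul_pow, Real.sq_sqrt hG0.le, hA,
      ← Real.rpow_natCast (((N : ℝ) + 1) ^ (-(1 / 4) : ℝ)) 2, ← Real.rpow_mul hN.le]
    norm_num
    ring
  exact (abs_le_of_sq_le_sq' h4 (by positivity)).2

lemma sum_Icc_split (f : ℤ → EL L →L[ℂ] EL L) (N N' : ℕ) (hN : N ≤ N') :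
    ∑ m ∈ Finset.Icc (-(N' : ℤ)) N', f m - ∑ m ∈ Finset.Icc (-(N : ℤ)) N, f m =
      ∑ m ∈ Finset.Ioc N N', (f m + f (-(m : ℤ))) := by
  induction N', hN using Nat.le_induction with
  | base => simp
  | succ n hn ih =>
    have h1 : Finset.Ioc N (n + 1) = insert (n + 1) (Finset.Ioc N n) := by
      ext m; simp only [Finset.mem_Ioc, Finset.mem_insert]; omega
    have h2 : Finset.Icc (-((n + 1 : ℕ) : ℤ)) ((n + 1 : ℕ) : ℤ) =
        insert (((n + 1 : ℕ) : ℤ)) (insert (-((n + 1 : ℕ) : ℤ)) (Finset.Icc (-(n : ℤ)) n)) := by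
      ext m; simp only [Finset.mem_Icc, Finset.mem_insert]; omega
    rw [h1, Finset.sum_insert (by simp), h2, Finset.sum_insert, Finset.sum_insert, ← ih]
    · abel
    · simp only [Finset.mem_Icc]; omega
    · simp only [Finset.mem_insert, Finset.mem_Icc]; omega

lemma tail_sum (N N' : ℕ) (hN : N ≤ N') :
    ∑ m ∈ Finset.Ioc N N', (1 : ℝ) / (1 + (m : ℝ) ^ 2) ≤ 1 / ((N : ℝ) + 1 / 2) := by
  have key : ∑ m ∈ Finset.Ioc N N', (1 : ℝ) / (1 + (m : ℝ) ^ 2) ≤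
      1 / ((N : ℝ) + 1 / 2) - 1 / ((N' : ℝ) + 1 / 2) := by
    induction N', hN using Nat.le_induction with
    | base => simp
    | succ n hn ih =>
      have h1 : Finset.Ioc N (n + 1) = insert (n + 1) (Finset.Ioc N n) := by
        ext m; simp only [Finset.mem_Ioc, Finset.mem_insert]; omega
      rw [h1, Finset.sum_insert (by simp)]
      have h2 : (1 : ℝ) / (1 + ((n + 1 : ℕ) : ℝ) ^ 2) ≤
          1 / ((n : ℝ) + 1 / 2) - 1 / (((n + 1 : ℕ) : ℝ) + 1 / 2) := by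
        push_cast
        rw [div_sub_div _ _ (by positivity) (by positivity), div_le_div_iff₀ (by positivity)
          (by positivity)]
        have : (0 : ℝ) ≤ n := Nat.cast_nonneg n
        nlinarith
      linarith
  have : (0 : ℝ) ≤ 1 / ((N' : ℝ) + 1 / 2) := by positivity
  linarith

theorem t_CONV (hKOP : S_KOP) (hMODE : S_MODE) (hSER : S_SER) (hGEO : S_GEO) : S_CONV := by
  intro L β X y h c₀ C₀ hc₀
  obtain ⟨C, hC0, hC⟩ := hSER
  obtain ⟨hG1, G, hG0, hG⟩ := hGEO L β X y h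
  have hβ := h.β_pos
  set c₁ := min c₀ β with hc₁
  set C₁ := max C₀ 0 with hC₁
  have hc₁0 : 0 < c₁ := lt_min hc₀ hβ
  obtain ⟨M, hM0, hM⟩ := (hMODE L β X y h).2 c₁ C₁ hc₁0
  refine ⟨fun N => 2 * (M * C₁) * (1 / ((N : ℝ) + 1 / 2)) +
    (C / β) * √G * ((N : ℝ) + 1) ^ (-(1 / 4) : ℝ), ?_, ?_⟩
  · have t1 : Tendsto (fun N : ℕ => 1 / ((N : ℝ) + 1 / 2)) atTop (𝓝 0) := by
      apply Tendsto.div_atTop tendsto_const_nhds
      exact tendsto_atTop_add_const_right _ _ tendsto_natCast_atTop_atTop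
    have t2 : Tendsto (fun N : ℕ => ((N : ℝ) + 1) ^ (-(1 / 4) : ℝ)) atTop (𝓝 0) := by
      apply (tendsto_rpow_neg_atTop (by norm_num : (0 : ℝ) < 1 / 4)).comp
      exact tendsto_atTop_add_const_right _ _ tendsto_natCast_atTop_atTop
    have := (t1.const_mul (2 * (M * C₁))).add (t2.const_mul ((C / β) * √G))
    simpa using this
  · intro κ hκ N
    have key : ∀ N N' : ℕ, N ≤ N' → ‖PS L X y κ N' - PS L X y κ N‖ ≤
        2 * (M * C₁) * (1 / ((N : ℝ) + 1 / 2)) +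
          (C / β) * √G * ((N : ℝ) + 1) ^ (-(1 / 4) : ℝ) := by
      intro N N' hN
      have e1 : PS L X y κ N' - PS L X y κ N = ∑ m ∈ Finset.Ioc N N',
          (Mo L X y m (κ m) + Mo L X y (-(m : ℤ)) (κ (-(m : ℤ)))) := by
        unfold PS
        exact sum_Icc_split (fun m => Mo L X y m (κ m)) N N' hN
      have e2 : kop L (kt β X y N N') = ∑ m ∈ Finset.Ioc N N',
          (Mo L X y m ((β * m : ℝ) : ℂ) + Mo L X y (-(m : ℤ)) ((β * m : ℝ) : ℂ)) := by
        unfold kt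
        rw [kop_sum hKOP h.L_pos]
        · apply Finset.sum_congr rfl
          intro m _
          exact (hKOP L h.L_pos).2.1 _ _ (mk_cont h _ _) (mk_cont h _ _)
        · intro m
          exact (mk_cont h _ _).add (mk_cont h _ _)
      have e3 : PS L X y κ N' - PS L X y κ N = (∑ m ∈ Finset.Ioc N N',
          ((Mo L X y m (κ m) - Mo L X y m ((β * m : ℝ) : ℂ)) +
            (Mo L X y (-(m : ℤ)) (κ (-(m : ℤ))) - Mo L X y (-(m : ℤ)) ((β * m : ℝ) : ℂ)))) +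
          kop L (kt β X y N N') := by
        rw [e1, e2, ← Finset.sum_add_distrib]
        apply Finset.sum_congr rfl
        intro m _
        abel
      rw [e3]
      refine le_trans (norm_add_le _ _) (add_le_add ?_
        (kt_norm hKOP h hC0 hC hG0 hG1 hG N N'))
      refine le_trans (norm_sum_le _ _) ?_
      have hb : ∀ m ∈ Finset.Ioc N N',
          ‖(Mo L X y m (κ m) - Mo L X y m ((β * m : ℝ) : ℂ)) +
            (Mo L X y (-(m : ℤ)) (κ (-(m : ℤ))) - Mo L X y (-(m : ℤ)) ((β * m : ℝ) : ℂ))‖ ≤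
            2 * (M * C₁) * (1 / (1 + (m : ℝ) ^ 2)) := by
        intro m hm
        rw [Finset.mem_Ioc] at hm
        have hm1 : (1 : ℝ) ≤ m := by exact_mod_cast (by omega : 1 ≤ m)
        have habs : |((m : ℤ) : ℝ)| = (m : ℝ) := by
          rw [Int.cast_natCast]; exact abs_of_nonneg (by positivity)
        have habs2 : |((-(m : ℤ) : ℤ) : ℝ)| = (m : ℝ) := by
          rw [Int.cast_neg, abs_neg]; exact habs
        have hn : ‖((β * m : ℝ) : ℂ)‖ = β * m := by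
          rw [Complex.norm_real, Real.norm_of_nonneg (by positivity)]
        have hlow : c₁ ≤ ‖((β * m : ℝ) : ℂ)‖ := by
          rw [hn]
          exact le_trans (min_le_right _ _) (by nlinarith)
        have hC₁0 : 0 ≤ C₁ := le_max_right _ _
        have b1 := hM m (κ m) ((β * m : ℝ) : ℂ) (le_trans (min_le_left _ _) (hκ.lower m)) hlow
          (le_trans (hκ.near m) (le_max_left _ _)) (by rw [habs, sub_self, norm_zero]; exact hC₁0)
        have b2 := hM (-(m : ℤ)) (κ (-(m : ℤ))) ((β * m : ℝ) : ℂ)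
          (le_trans (min_le_left _ _) (hκ.lower _)) hlow
          (le_trans (hκ.near _) (le_max_left _ _)) (by rw [habs2, sub_self, norm_zero]; exact hC₁0)
        have n1 := hκ.near m
        have n2 := hκ.near (-(m : ℤ))
        rw [habs] at n1
        rw [habs2] at n2
        have q1 : M * ‖κ m - ((β * m : ℝ) : ℂ)‖ / (1 + ((m : ℤ) : ℝ) ^ 2) ≤
            (M * C₁) * (1 / (1 + (m : ℝ) ^ 2)) := by
          rw [Int.cast_natCast, mul_one_div]
          gcongr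
          exact le_trans n1 (le_max_left _ _)
        have q2 : M * ‖κ (-(m : ℤ)) - ((β * m : ℝ) : ℂ)‖ / (1 + ((-(m : ℤ) : ℤ) : ℝ) ^ 2) ≤
            (M * C₁) * (1 / (1 + (m : ℝ) ^ 2)) := by
          rw [Int.cast_neg, neg_sq, Int.cast_natCast, mul_one_div]
          gcongr
          exact le_trans n2 (le_max_left _ _)
        refine le_trans (norm_add_le _ _) ?_
        have := le_trans b1 q1
        have := le_trans b2 q2
        linarith
      refine le_trans (Finset.sum_le_sum hb) ?_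
      rw [← Finset.mul_sum]
      have hC₁0 : 0 ≤ C₁ := le_max_right _ _
      exact mul_le_mul_of_nonneg_left (tail_sum N N' hN) (by positivity)
    set ρ : ℕ → ℝ := fun N => 2 * (M * C₁) * (1 / ((N : ℝ) + 1 / 2)) +
          (C / β) * √G * ((N : ℝ) + 1) ^ (-(1 / 4) : ℝ) with hρ
    have hρ0 : Tendsto ρ atTop (𝓝 0) := by
      have t1 : Tendsto (fun N : ℕ => 1 / ((N : ℝ) + 1 / 2)) atTop (𝓝 0) := by
        apply Tendsto.div_atTop tendsto_const_nhds
        exact tendsto_atTop_add_const_right _ _ tendsto_natCast_atTop_atTop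
      have t2 : Tendsto (fun N : ℕ => ((N : ℝ) + 1) ^ (-(1 / 4) : ℝ)) atTop (𝓝 0) := by
        apply (tendsto_rpow_neg_atTop (by norm_num : (0 : ℝ) < 1 / 4)).comp
        exact tendsto_atTop_add_const_right _ _ tendsto_natCast_atTop_atTop
      have := (t1.const_mul (2 * (M * C₁))).add (t2.const_mul ((C / β) * √G))
      rw [mul_zero, mul_zero, add_zero] at this
      exact this
    have hcau : CauchySeq (PS L X y κ) := by
      refine cauchySeq_of_le_tendsto_0' ρ ?_ hρ0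
      intro n m hnm
      rw [dist_comm, dist_eq_norm]
      exact key n m hnm
    obtain ⟨T, hT⟩ := cauchySeq_tendsto_of_complete hcau
    have hKK : KK L X y κ = T := hT.limUnder_eq
    rw [hKK]
    have hlim : Tendsto (fun N' => ‖PS L X y κ N' - PS L X y κ N‖) atTop
        (𝓝 ‖T - PS L X y κ N‖) := (hT.sub_const _).norm
    rw [norm_sub_rev]
    apply le_of_tendsto hlim
    filter_upwards [eventually_ge_atTop N] with N' hN'
    exact key N N' hN'

end Pool.Agent.H353.LK
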